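import Pool.Agent.Helper478_Joint.ET
import Pool.Agent.Helper478_Joint.Weyl

/-!
# Joint digits of `(x₁ n ^ θ, …, x_r n ^ θ)` for almost all `n`
-/

set_option autoImplicit false

namespace Pool.Agent.Helper478.Joint

open Finset Filter
open Pool.Agent.H469R2.NK (e norm_e e_add e_zero conj_e)

/-- **joint distribution** -/
theorem joint : ∃ γ : ℝ, 0 < γ ∧ γ ≤ 1 / 20 ∧ ∀ θ : ℝ, -1 ≤ θ → θ < 1 → θ ≠ 0 → ∀ (r : ℕ)
    (x : Fin r → ℝ), LinearIndependent ℚ x → ∀ δ : ℝ, 0 < δ → ∀ ε : ℝ, 0 < ε →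
      ∃ N₀ : ℕ, ∀ N : ℕ, N₀ ≤ N →
      (({n : ℕ | N < n ∧ n ≤ 2 * N ∧ ∃ b u v : ℕ, 2 ≤ b ∧ (Real.log N) ^ (1 - γ) ≤ (v : ℝ) - u ∧
        v * Real.log b ≤ (Real.log N) ^ (1 + γ) ∧ (N : ℝ) ^ δ ≤ (b : ℝ) ^ u * (N : ℝ) ^ θ ∧
        ∃ p q : Fin r → ℝ, (∀ j, 0 ≤ p j ∧ p j ≤ q j ∧ q j ≤ 1) ∧
          ε * ((v : ℝ) - u) < |(({i : ℕ | u < i ∧ i ≤ v ∧ ∀ j, p j ≤ Int.fract (x j * (n : ℝ) ^ θ *
            (b : ℝ) ^ i) ∧ Int.fract (x j * (n : ℝ) ^ θ * (b : ℝ) ^ i) < q j}.ncard : ℕ) : ℝ) -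
              ((v : ℝ) - u) * ∏ j, (q j - p j)|}.ncard : ℕ) : ℝ) ≤
          N * Real.exp (-√(Real.log N)) := by
  classical
  obtain ⟨γ, hγ0, hγ1, hW⟩ := weylW
  refine ⟨γ, hγ0, hγ1, ?_⟩
  intro θ h1 h2 h3 r x hx δ hδ ε hε
  obtain ⟨K, ε', hε', hbox⟩ := weyl_box r ε hε
  let A : Finset ℝ := ((Fintype.piFinset fun _ : Fin r => Icc (-(K : ℤ)) K).erase 0).image
    fun Z => ∑ j, (Z j : ℝ) * x j
  have hA : ∀ α ∈ A, α ≠ 0 := by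
    intro α hα
    simp only [A, mem_image, mem_erase, Fintype.mem_piFinset] at hα
    obtain ⟨Z, ⟨hZ0, _⟩, rfl⟩ := hα
    intro h0
    apply hZ0
    rw [Fintype.linearIndependent_iff] at hx
    have := hx (fun j => (Z j : ℚ)) (by
      rw [← h0]
      refine sum_congr rfl fun j _ => ?_
      rw [Rat.smul_def]
      push_cast
      rfl)
    funext j
    have h := this j
    exact_mod_cast h
  obtain ⟨N₀, hN₀⟩ := hW θ h1 h2 h3 A hA δ hδ ε' hε'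
  refine ⟨N₀, fun N hN => le_trans ?_ (hN₀ N hN)⟩
  have hfin : {n : ℕ | N < n ∧ n ≤ 2 * N ∧ ∃ b u v : ℕ, 2 ≤ b ∧ (Real.log N) ^ (1 - γ) ≤ (v : ℝ) - u ∧
        v * Real.log b ≤ (Real.log N) ^ (1 + γ) ∧ (N : ℝ) ^ δ ≤ (b : ℝ) ^ u * (N : ℝ) ^ θ ∧
        ∃ α ∈ A, ε' * ((v : ℝ) - u) <
          ‖∑ i ∈ Icc 1 (v - u), e (α * (b : ℝ) ^ (u + i) * (n : ℝ) ^ θ)‖}.Finite :=
    (Set.finite_Iic (2 * N)).subset fun n hn => hn.2.1
  have := Set.ncard_le_ncard (s := {n : ℕ | N < n ∧ n ≤ 2 * N ∧ ∃ b u v : ℕ, 2 ≤ b ∧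
        (Real.log N) ^ (1 - γ) ≤ (v : ℝ) - u ∧
        v * Real.log b ≤ (Real.log N) ^ (1 + γ) ∧ (N : ℝ) ^ δ ≤ (b : ℝ) ^ u * (N : ℝ) ^ θ ∧
        ∃ p q : Fin r → ℝ, (∀ j, 0 ≤ p j ∧ p j ≤ q j ∧ q j ≤ 1) ∧
          ε * ((v : ℝ) - u) < |(({i : ℕ | u < i ∧ i ≤ v ∧ ∀ j, p j ≤ Int.fract (x j * (n : ℝ) ^ θ *
            (b : ℝ) ^ i) ∧ Int.fract (x j * (n : ℝ) ^ θ * (b : ℝ) ^ i) < q j}.ncard : ℕ) : ℝ) -
              ((v : ℝ) - u) * ∏ j, (q j - p j)|}) ?_ hfin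
  · exact_mod_cast this
  rintro n ⟨a1, a2, b, u, v, a3, a4, a5, a6, p, q, hpq, a7⟩
  refine ⟨a1, a2, b, u, v, a3, a4, a5, a6, ?_⟩
  by_contra hcon
  push Not at hcon
  refine absurd a7 (not_lt.2 ?_)
  rcases le_or_gt v u with hvu | huv
  · -- the window is empty; this happens only if `log N ^ (1 - γ) ≤ 0`
    have hvu' : (v : ℝ) ≤ u := by exact_mod_cast hvu
    have e0 : {i : ℕ | u < i ∧ i ≤ v ∧ ∀ j, p j ≤ Int.fract (x j * (n : ℝ) ^ θ *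
            (b : ℝ) ^ i) ∧ Int.fract (x j * (n : ℝ) ^ θ * (b : ℝ) ^ i) < q j} = ∅ := by
      ext i
      simp only [Set.mem_setOf_eq, Set.mem_empty_iff_false, iff_false]
      rintro ⟨c1, c2, _⟩
      omega
    have hlog : 0 ≤ Real.log N := Real.log_natCast_nonneg N
    have hvu2 : (v : ℝ) - u = 0 := le_antisymm (by linarith)
      (le_trans (Real.rpow_nonneg hlog _) a4)
    rw [e0, hvu2]
    simp
  have e1 : {i : ℕ | u < i ∧ i ≤ v ∧ ∀ j, p j ≤ Int.fract (x j * (n : ℝ) ^ θ *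
            (b : ℝ) ^ i) ∧ Int.fract (x j * (n : ℝ) ^ θ * (b : ℝ) ^ i) < q j} =
      (fun i => u + i) '' (((Icc 1 (v - u)).filter fun i => ∀ j, p j ≤ Int.fract (x j * (n : ℝ) ^ θ *
            (b : ℝ) ^ (u + i)) ∧ Int.fract (x j * (n : ℝ) ^ θ * (b : ℝ) ^ (u + i)) < q j : Finset ℕ) :
              Set ℕ) := by
    ext i
    simp only [Set.mem_setOf_eq, Set.mem_image, Finset.coe_filter, mem_Icc]
    constructor
    · rintro ⟨c1, c2, c3⟩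
      refine ⟨i - u, ⟨⟨by omega, by omega⟩, ?_⟩, by omega⟩
      rw [show u + (i - u) = i by omega]
      exact c3
    · rintro ⟨i', ⟨⟨c1, c2⟩, c3⟩, rfl⟩
      exact ⟨by omega, by omega, c3⟩
  rw [e1, Set.ncard_image_of_injective _ (fun a b h => by simpa using h), Set.ncard_coe_finset]
  have hcard : (((Icc 1 (v - u)).card : ℕ) : ℝ) = (v : ℝ) - u := by
    rw [Nat.card_Icc, Nat.add_sub_cancel, Nat.cast_sub huv.le]
  have h := hbox ℕ (Icc 1 (v - u)) (fun i j => x j * (n : ℝ) ^ θ * (b : ℝ) ^ (u + i)) (by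
    intro Z hZ0 hZ
    rw [hcard]
    have hα : (∑ j, (Z j : ℝ) * x j) ∈ A := by
      simp only [A, mem_image, mem_erase, Fintype.mem_piFinset]
      refine ⟨Z, ⟨hZ0, fun j => ?_⟩, rfl⟩
      rw [mem_Icc]
      exact abs_le.1 (hZ j)
    refine le_trans (le_of_eq ?_) (hcon _ hα)
    congr 1
    refine sum_congr rfl fun i _ => ?_
    congr 1
    rw [sum_mul, sum_mul]
    refine sum_congr rfl fun j _ => ?_
    ring) p q hpq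
  rw [hcard] at h
  exact h

end Pool.Agent.Helper478.Joint
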